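import Pool.Agent.Lib.MP_c17912_pr_LN.BA

/-!
# MP_c17912_pr, project LN2: the points of a disc with a good derivative are absorbed together
-/

set_option autoImplicit false

open MeasureTheory ProbabilityTheory Filter
open scoped NNReal ENNReal Topology Real

namespace Pool.Agent.SLE

noncomputable section

namespace SimAux

theorem one_le {U : ℝ → ℂ} (h0 : U 0 = 0) {z₀ : ℂ} {M θ : ℝ} (hz : z₀ ≠ 0)
    (hb : ∀ t g, 0 ≤ t → Sol U z₀ t g →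
      Real.exp (-∫ s in (0 : ℝ)..t, (2 / (g s - U s) ^ 2).re)
        ≤ M / ‖z₀‖ * ‖g t - U t‖ * Real.exp (-θ * ∫ s in (0 : ℝ)..t, 1 / ‖g s - U s‖ ^ 2))
    {t : ℝ} (ht : 0 ≤ t) {g : ℝ → ℂ} (hg : Sol U z₀ t g) : 1 ≤ M := by
  have hz0 : 0 < ‖z₀‖ := norm_pos_iff.mpr hz
  have h1 := hb 0 g le_rfl (hg.restrict ht)
  rw [intervalIntegral.integral_same, intervalIntegral.integral_same, neg_zero, mul_zero,
    Real.exp_zero, mul_one, hg.1, h0, sub_zero, div_mul_cancel₀ _ hz0.ne'] at h1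
  exact h1

theorem lower {U : ℝ → ℂ} (hU : Continuous U) {z : ℂ} {t : ℝ} (ht : 0 ≤ t) {g : ℝ → ℂ}
    (hg : Sol U z t g) : ∃ c : ℝ, 0 < c ∧ ∀ x ∈ Set.Icc 0 t, c ≤ ‖g x - U x‖ := by
  have hgc : ContinuousOn (fun x => ‖g x - U x‖) (Set.Icc 0 t) := fun x hx =>
    ((hg.2.2 x hx).continuousWithinAt.sub hU.continuousAt.continuousWithinAt).norm
  obtain ⟨x, hx, hmin⟩ := isCompact_Icc.exists_isMinOn ⟨0, ⟨le_rfl, ht⟩⟩ hgc
  exact ⟨‖g x - U x‖, norm_pos_iff.mpr (sub_ne_zero.mpr (hg.2.1 x hx)), fun y hy => hmin hy⟩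

end SimAux

open SimAux in
/-- SIM1. A point of the disc is alive as long as the centre is. -/
theorem disc_alive {U : ℝ → ℂ} (hU : Continuous U) (h0 : U 0 = 0) {z₀ : ℂ} {M ρ θ : ℝ}
    (hz : z₀ ≠ 0) (hρ : 0 ≤ ρ) (hθ : 0 < θ) (hθ2 : θ ≤ 2) (hM : 16 * ρ * M ≤ θ)
    (hb : ∀ t g, 0 ≤ t → Sol U z₀ t g →
      Real.exp (-∫ s in (0 : ℝ)..t, (2 / (g s - U s) ^ 2).re)
        ≤ M / ‖z₀‖ * ‖g t - U t‖ * Real.exp (-θ * ∫ s in (0 : ℝ)..t, 1 / ‖g s - U s‖ ^ 2))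
    {w : ℂ} (hw : ‖w - z₀‖ ≤ ρ * ‖z₀‖) {t : ℝ} (ht : 0 ≤ t) (hal : ∃ g, Sol U z₀ t g) :
    ∃ g, Sol U w t g := by
  by_contra hcon
  have hz0 : 0 < ‖z₀‖ := norm_pos_iff.mpr hz
  obtain ⟨g, hg⟩ := hal
  have hM1 : 1 ≤ M := one_le h0 hz hb ht hg
  have hρ8 : ρ ≤ 1 / 8 := by nlinarith
  have hw0 : 0 < ‖w‖ := by
    have h1 : ‖z₀‖ ≤ ‖w‖ + ‖w - z₀‖ := by
      have := norm_sub_le w (w - z₀)
      rwa [sub_sub_cancel] at this
    nlinarith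
  obtain ⟨c, hc0, hc⟩ := lower hU ht hg
  set δ : ℝ := min (c / 2) (‖w‖ / 2) with hδ
  have hδ0 : 0 < δ := lt_min (by linarith) (by linarith)
  obtain ⟨s, hs, g', hg', hgs⟩ := hull_reach hU ht (z := w) (δ := δ) hcon hδ0 (by
    rw [h0, sub_zero]
    exact lt_of_le_of_lt (min_le_right _ _) (by linarith))
  have hgr : Sol U z₀ s g := hg.restrict hs.2
  have hcs := hc s hs
  by_cases hne : w = z₀
  · subst hne
    have := Sol.unique hU hg' hgr s ⟨hs.1, le_rfl⟩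
    rw [this] at hgs
    rw [hgs] at hcs
    have := min_le_left (c / 2) (‖w‖ / 2)
    linarith
  · have h1 := BAaux.close hU hz hρ hs.1 hθ hθ2 hM (by linarith) hgr hg'
      (fun u hu => hb u g hu.1 (hgr.restrict hu.2)) hw hne
    have h2 : ‖g s - U s‖ ≤ ‖g' s - U s‖ + ‖g' s - g s‖ := by
      have := norm_sub_le (g' s - U s) (g' s - g s)
      have e : g' s - U s - (g' s - g s) = g s - U s := by ring
      rwa [e] at this
    rw [hgs] at h2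
    have := min_le_left (c / 2) (‖w‖ / 2)
    linarith

open SimAux in
/-- SIM2. The centre is alive as long as one point of the disc is. -/
theorem centre_alive {U : ℝ → ℂ} (hU : Continuous U) (h0 : U 0 = 0) {z₀ : ℂ} {M ρ θ : ℝ}
    (hz : z₀ ≠ 0) (hρ : 0 ≤ ρ) (hθ : 0 < θ) (hθ2 : θ ≤ 2) (hM : 16 * ρ * M ≤ θ)
    (hb : ∀ t g, 0 ≤ t → Sol U z₀ t g →
      Real.exp (-∫ s in (0 : ℝ)..t, (2 / (g s - U s) ^ 2).re)
        ≤ M / ‖z₀‖ * ‖g t - U t‖ * Real.exp (-θ * ∫ s in (0 : ℝ)..t, 1 / ‖g s - U s‖ ^ 2))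
    {w : ℂ} (hw : ‖w - z₀‖ ≤ ρ * ‖z₀‖) {t : ℝ} (ht : 0 ≤ t) (hal : ∃ g, Sol U w t g) :
    ∃ g, Sol U z₀ t g := by
  by_contra hcon
  have hz0 : 0 < ‖z₀‖ := norm_pos_iff.mpr hz
  obtain ⟨g', hg'⟩ := hal
  obtain ⟨c, hc0, hc⟩ := lower hU ht hg'
  set δ : ℝ := min (c / 2) (‖z₀‖ / 2) with hδ
  have hδ0 : 0 < δ := lt_min (by linarith) (by linarith)
  obtain ⟨s, hs, g, hg, hgs⟩ := hull_reach hU ht (z := z₀) (δ := δ) hcon hδ0 (by
    rw [h0, sub_zero]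
    exact lt_of_le_of_lt (min_le_right _ _) (by linarith))
  have hgr : Sol U w s g' := hg'.restrict hs.2
  have hcs := hc s hs
  have hM1 : 1 ≤ M := one_le h0 hz hb hs.1 hg
  by_cases hne : w = z₀
  · subst hne
    exact hcon ⟨g', hg'⟩
  · have h1 := BAaux.close hU hz hρ hs.1 hθ hθ2 hM (by linarith) hg hgr
      (fun u hu => hb u g hu.1 (hg.restrict hu.2)) hw hne
    have h2 : ‖g' s - U s‖ ≤ ‖g' s - g s‖ + ‖g s - U s‖ := by
      have := norm_add_le (g' s - g s) (g s - U s)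
      rwa [sub_add_sub_cancel] at this
    rw [hgs] at h1 h2
    have := min_le_left (c / 2) (‖z₀‖ / 2)
    linarith

end

end Pool.Agent.SLE
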