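import Pool.Agent.Lib.MP_c17912_pr.Disc
import Pool.Agent.Lib.MP_c17912_pr.Euler
import Pool.Agent.Lib.MP_c17912_pr.DrvSub
import Pool.Agent.Lib.MP_c17912_pr_LN2.Sim

/-!
# MP_c17912_pr, project LN2: measurability of the absorbing time of a point
-/

set_option autoImplicit false

open MeasureTheory ProbabilityTheory Filter
open scoped NNReal ENNReal Topology Real

namespace Pool.Agent.SLE

noncomputable section

variable {Ω : Type*} [MeasurableSpace Ω] {μ : Measure Ω} {a b c K : ℝ} {W : ℝ → Ω → ℂ}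

open EulerAux

namespace MsAux

theorem mem_Icc {t : ℝ} (ht : 0 ≤ t) {n i : ℕ} (hi : i ≤ jn t n) :
    (i : ℝ) * (1 / 2) ^ n ∈ Set.Icc 0 t := by
  refine ⟨by positivity, le_trans ?_ (jn_le ht n)⟩
  exact mul_le_mul_of_nonneg_right (Nat.cast_le.2 hi) (by positivity)

theorem alive_imp {U : ℝ → ℂ} (hU : Continuous U) (h0 : U 0 = 0) {z : ℂ} {t : ℝ} (ht : 0 ≤ t)
    (h : ∃ g, Sol U z t g) : ∃ k N : ℕ, ∀ n ≥ N, ∀ i ≤ jn t n,
      (1 / 2 : ℝ) ^ k ≤ ‖eul U z ((1 / 2) ^ n) i‖ := by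
  obtain ⟨g, hg⟩ := h
  obtain ⟨c, hc0, hc⟩ := SimAux.lower hU ht hg
  obtain ⟨k, hk⟩ := exists_pow_lt_of_lt_one (show 0 < c / 2 by linarith)
    (show (1 / 2 : ℝ) < 1 by norm_num)
  have h1 := eul_close hU h0 ht (show 0 < c / 2 by linarith) hg hc (by linarith)
    (show 0 < c / 2 by linarith)
  obtain ⟨N, hN⟩ := eventually_atTop.1 h1
  refine ⟨k, N, fun n hn i hi => ?_⟩
  have h2 := hN n hn i hi
  have h3 := hc _ (mem_Icc ht hi)
  have h4 := norm_sub_norm_le (g ((i : ℝ) * (1 / 2) ^ n) - U ((i : ℝ) * (1 / 2) ^ n))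
    (eul U z ((1 / 2) ^ n) i)
  rw [norm_sub_rev (g ((i : ℝ) * (1 / 2) ^ n) - U ((i : ℝ) * (1 / 2) ^ n))
    (eul U z ((1 / 2) ^ n) i)] at h4
  linarith

theorem imp_alive {U : ℝ → ℂ} (hU : Continuous U) (h0 : U 0 = 0) {z : ℂ} {t : ℝ} (ht : 0 ≤ t)
    {k N : ℕ} (h : ∀ n ≥ N, ∀ i ≤ jn t n, (1 / 2 : ℝ) ^ k ≤ ‖eul U z ((1 / 2) ^ n) i‖) :
    ∃ g, Sol U z t g := by
  by_contra hcon
  obtain ⟨κ, hκ⟩ : ∃ κ : ℝ, κ = (1 / 2 : ℝ) ^ k := ⟨_, rfl⟩
  have hκ0 : 0 < κ := by rw [hκ]; positivity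
  have hz : κ ≤ ‖z‖ := by
    have h1 := h N le_rfl 0 (Nat.zero_le _)
    rw [← hκ] at h1
    exact h1
  obtain ⟨s, hs, g, hg, hgs⟩ := hull_reach hU ht (z := z) (δ := κ / 4) hcon (by linarith) (by
    rw [h0, sub_zero]
    linarith)
  obtain ⟨c, hc0, hc⟩ := SimAux.lower hU hs.1 hg
  have h1 := eul_close hU h0 hs.1 (show 0 < c / 2 by linarith) hg hc (by linarith)
    (show 0 < κ / 4 by linarith)
  have hZc : ContinuousOn (fun x => g x - U x) (Set.Icc 0 s) := fun x hx =>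
    (hg.2.2 x hx).continuousWithinAt.sub hU.continuousAt.continuousWithinAt
  have hlim : Tendsto (fun n : ℕ => (jn s n : ℝ) * (1 / 2) ^ n) atTop (𝓝 s) := by
    have h2 : Tendsto (fun n : ℕ => s - (1 / 2 : ℝ) ^ n) atTop (𝓝 (s - 0)) :=
      tendsto_const_nhds.sub (tendsto_pow_atTop_nhds_zero_of_lt_one (by norm_num) (by norm_num))
    rw [sub_zero] at h2
    refine tendsto_of_tendsto_of_tendsto_of_le_of_le h2 tendsto_const_nhds ?_ ?_
    · intro n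
      have := lt_jn (t := s) n
      simp only
      linarith
    · intro n
      exact jn_le hs.1 n
  have hlim2 : Tendsto (fun n : ℕ => (jn s n : ℝ) * (1 / 2) ^ n) atTop (𝓝[Set.Icc 0 s] s) :=
    tendsto_nhdsWithin_iff.2 ⟨hlim, Eventually.of_forall fun n => mem_Icc hs.1 le_rfl⟩
  have h3 := (hZc s ⟨hs.1, le_rfl⟩).tendsto.comp hlim2
  have h4 : ∀ᶠ n : ℕ in atTop, ‖(g ((jn s n : ℝ) * (1 / 2) ^ n) -
      U ((jn s n : ℝ) * (1 / 2) ^ n)) - (g s - U s)‖ < κ / 4 := by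
    have h5 := Metric.tendsto_nhds.1 h3 (κ / 4) (by linarith)
    filter_upwards [h5] with n hn
    rw [dist_eq_norm] at hn
    exact hn
  obtain ⟨n, ⟨hn1, hn2⟩, hn3⟩ := ((h1.and h4).and (eventually_ge_atTop N)).exists
  have h5 := hn1 (jn s n) le_rfl
  have hmono : jn s n ≤ jn t n := by
    unfold jn
    exact Nat.floor_le_floor (mul_le_mul_of_nonneg_right hs.2 (by positivity))
  have h6 := h n hn3 (jn s n) hmono
  rw [← hκ] at h6
  have e : eul U z ((1 / 2) ^ n) (jn s n) = (eul U z ((1 / 2) ^ n) (jn s n)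
      - (g ((jn s n : ℝ) * (1 / 2) ^ n) - U ((jn s n : ℝ) * (1 / 2) ^ n)))
      + (((g ((jn s n : ℝ) * (1 / 2) ^ n) - U ((jn s n : ℝ) * (1 / 2) ^ n)) - (g s - U s))
      + (g s - U s)) := by ring
  rw [e] at h6
  have h7 := (norm_add_le (eul U z ((1 / 2) ^ n) (jn s n)
      - (g ((jn s n : ℝ) * (1 / 2) ^ n) - U ((jn s n : ℝ) * (1 / 2) ^ n)))
      (((g ((jn s n : ℝ) * (1 / 2) ^ n) - U ((jn s n : ℝ) * (1 / 2) ^ n)) - (g s - U s))
      + (g s - U s))).trans (add_le_add_right (norm_add_le _ _) _)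
  linarith

end MsAux

open MsAux in
/-- MS. The event that a point is alive at time `t` is measurable. -/
theorem alive_meas (hW : Drv a b c K W μ) (z : ℂ) {t : ℝ} (ht : 0 ≤ t) :
    MeasurableSet[Fut W 0] {ω | ∃ g, Sol (fun s => W s ω) z t g} := by
  have e : {ω | ∃ g, Sol (fun s => W s ω) z t g} = ⋃ k : ℕ, ⋃ N : ℕ, ⋂ n : ℕ, ⋂ _ : n ≥ N,
      ⋂ i : ℕ, ⋂ _ : i ≤ jn t n, {ω | (1 / 2 : ℝ) ^ k ≤ ‖DiscAux.Z W z ((1 / 2) ^ n) i ω‖} := by
    ext ω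
    simp only [Set.mem_iUnion, Set.mem_iInter, Set.mem_ofPred_eq]
    constructor
    · intro h
      exact alive_imp (hW.cont ω) (hW.zero 0 le_rfl ω) ht h
    · rintro ⟨k, N, h⟩
      exact imp_alive (hW.cont ω) (hW.zero 0 le_rfl ω) ht h
  rw [e]
  refine @MeasurableSet.iUnion _ _ (Fut W 0) _ _ fun k => ?_
  refine @MeasurableSet.iUnion _ _ (Fut W 0) _ _ fun N => ?_
  refine @MeasurableSet.iInter _ _ (Fut W 0) _ _ fun n => ?_
  refine @MeasurableSet.iInter _ _ (Fut W 0) _ _ fun _ => ?_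
  refine @MeasurableSet.iInter _ _ (Fut W 0) _ _ fun i => ?_
  refine @MeasurableSet.iInter _ _ (Fut W 0) _ _ fun _ => ?_
  have h1 := DiscAux.Z_meas (W := W) (h := (1 / 2 : ℝ) ^ n) (by positivity) z i
    ((i : ℝ) * (1 / 2) ^ n) le_rfl
  have h2 : MeasurableSet[Blk W 0 ((i : ℝ) * (1 / 2) ^ n)]
      {ω | (1 / 2 : ℝ) ^ k ≤ ‖DiscAux.Z W z ((1 / 2) ^ n) i ω‖} :=
    (measurable_norm.comp h1) measurableSet_Ici
  exact Blk_le_Fut (W := W) 0 _ _ h2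

end

end Pool.Agent.SLE
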