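import Pool.Agent.Lib.MP_c17912_pr_LN.DE
import Pool.Agent.Lib.MP_c17912_pr_LN2.Ms

/-!
# MP_c17912_pr, project LN2: a small disc is absorbed as a whole or never
-/

set_option autoImplicit false

open MeasureTheory ProbabilityTheory Filter
open scoped NNReal ENNReal Topology Real

namespace Pool.Agent.SLE

noncomputable section

variable {Ω : Type*} [MeasurableSpace Ω]

/-- The second sub-solution: discs are not split. -/
def HasAngB (a b c : ℝ) : Prop :=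
  ∃ ψ, ∃ m > 0, Ang a b c (fun θ => H1 a b c θ + 2 * Real.cos (2 * θ)) m ψ

namespace SDBAux

theorem exists_M {β C : ℝ} (hβ : 0 < β) (hC : 0 < C) : ∃ M > 0, C / M ^ β ≤ 1 / 4 := by
  refine ⟨(4 * C) ^ (1 / β), by positivity, ?_⟩
  rw [← Real.rpow_mul (by positivity), one_div, inv_mul_cancel₀ hβ.ne', Real.rpow_one]
  apply le_of_eq
  field_simp

/-- A point which is alive at a late time is alive for ever, up to a small probability. -/
theorem tail {μ : Measure Ω} [IsProbabilityMeasure μ] {a b c K : ℝ} {W : ℝ → Ω → ℂ}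
    (hW : Drv a b c K W μ) (z : ℂ) : ∃ n : ℕ, 0 < n ∧ ∃ D, MeasurableSet[Fut W 0] D ∧
      μ D ≤ ENNReal.ofReal (1 / 4) ∧ ∀ ω ∉ D, (∃ g, Sol (fun s => W s ω) z n g) →
        ∀ t, 0 ≤ t → ∃ g, Sol (fun s => W s ω) z t g := by
  obtain ⟨E, hE⟩ : ∃ E : ℕ → Set Ω, E = fun n : ℕ => {ω | ∃ g, Sol (fun s => W s ω) z (n : ℝ) g} :=
    ⟨_, rfl⟩
  have hEm : ∀ n, MeasurableSet[Fut W 0] (E n) := by
    intro n
    rw [hE]
    exact alive_meas hW z (Nat.cast_nonneg n)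
  have hEmono : ∀ n m : ℕ, n ≤ m → E m ⊆ E n := by
    intro n m hnm ω hω
    rw [hE] at hω ⊢
    obtain ⟨g, hg⟩ := hω
    exact ⟨g, hg.restrict (Nat.cast_le.2 hnm)⟩
  obtain ⟨D, hD⟩ : ∃ D : ℕ → Set Ω, D = fun n => E n \ ⋂ m, E m := ⟨_, rfl⟩
  have hIm : MeasurableSet[Fut W 0] (⋂ m, E m) :=
    @MeasurableSet.iInter _ _ (Fut W 0) _ _ fun m => hEm m
  have hDm : ∀ n, MeasurableSet[Fut W 0] (D n) := by
    intro n
    rw [hD]
    exact @MeasurableSet.diff _ (Fut W 0) _ _ (hEm n) hIm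
  have hanti : Antitone D := by
    intro n m hnm
    rw [hD]
    exact Set.diff_subset_diff_left (hEmono n m hnm)
  have hinter : ⋂ n, D n = ∅ := by
    rw [Set.eq_empty_iff_forall_notMem]
    intro ω hω
    rw [Set.mem_iInter] at hω
    have h1 := hω 0
    rw [hD] at h1
    apply h1.2
    rw [Set.mem_iInter]
    intro m
    have h2 := hω m
    rw [hD] at h2
    exact h2.1
  have hlim := tendsto_measure_iInter_atTop (μ := μ) (s := D)
    (fun n => (Fut_le hW 0 _ (hDm n)).nullMeasurableSet) hanti ⟨0, measure_ne_top μ _⟩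
  rw [hinter, measure_empty] at hlim
  have h4 : ∀ᶠ n in atTop, μ (D n) < ENNReal.ofReal (1 / 4) :=
    hlim.eventually_lt_const (ENNReal.ofReal_pos.2 (by norm_num))
  obtain ⟨n, hn, hn0⟩ := (h4.and (eventually_gt_atTop 0)).exists
  refine ⟨n, hn0, D n, hDm n, hn.le, fun ω hω hal t ht => ?_⟩
  have h5 : ω ∈ E n := by
    rw [hE]
    exact hal
  have h6 : ω ∈ ⋂ m, E m := by
    by_contra h7
    apply hω
    rw [hD]
    exact ⟨h5, h7⟩
  rw [Set.mem_iInter] at h6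
  have h8 := h6 ⌈t⌉₊
  rw [hE] at h8
  obtain ⟨g, hg⟩ := h8
  exact ⟨g, hg.restrict (Nat.le_ceil t)⟩

end SDBAux

open SDBAux in
/-- SDB. A small disc is absorbed as a whole or never, and not after a late time, with
probability at least `1/2`. -/
theorem small_disc2 {a b c : ℝ} (ha : 0 ≤ a) (hb : 0 ≤ b) (hc : c ^ 2 ≤ a * b)
    (h : HasAngB a b c) : ∃ q > 0, ∀ (K : ℝ) (μ : Measure Ω) [IsProbabilityMeasure μ]
      (W : ℝ → Ω → ℂ), Drv a b c K W μ → ∀ z₀ : ℂ, z₀ ≠ 0 →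
        ∃ T > (0 : ℝ), ∃ A, MeasurableSet[Fut W 0] A ∧ μ A ≤ ENNReal.ofReal (1 / 2) ∧
          ∀ ω ∉ A, ∀ w : ℂ, ‖w - z₀‖ ≤ q * ‖z₀‖ → (∃ g, Sol (fun t => W t ω) w T g) →
            ∀ t : ℝ, 0 ≤ t → ∃ g, Sol (fun t => W t ω) w t g := by
  obtain ⟨ψ, m, hm, hψ⟩ := h
  obtain ⟨β, hβ, θ, hθ, hθ2, C, hC, hder⟩ := der_event (Ω := Ω) ha hb hc hψ hm
  obtain ⟨M, hM, hM4⟩ := exists_M hβ hC
  refine ⟨θ / (16 * M), by positivity, fun K μ _ W hW z₀ hz => ?_⟩
  obtain ⟨A, hAm, hA, hA'⟩ := hder K μ W hW z₀ hz M hM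
  obtain ⟨n, hn0, D, hDm, hD, hD'⟩ := tail hW z₀
  refine ⟨n, Nat.cast_pos.2 hn0, A ∪ D, @MeasurableSet.union _ (Fut W 0) _ _ hAm hDm, ?_, ?_⟩
  · refine (measure_union_le _ _).trans ?_
    have h1 := hA.trans (ENNReal.ofReal_le_ofReal hM4)
    refine (add_le_add h1 hD).trans ?_
    rw [← ENNReal.ofReal_add (by norm_num) (by norm_num)]
    exact ENNReal.ofReal_le_ofReal (by norm_num)
  · intro ω hω w hw hal t ht
    rw [Set.mem_union, not_or] at hω
    have hb' := fun (s : ℝ) (g : ℝ → ℂ) (hs : 0 ≤ s) (hg : Sol (fun t => W t ω) z₀ s g) =>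
      hA' ω hω.1 s g hs hg
    have hMq : 16 * (θ / (16 * M)) * M ≤ θ := by
      apply le_of_eq
      field_simp
    have h1 := centre_alive (hW.cont ω) (hW.zero 0 le_rfl ω) hz (by positivity) hθ hθ2 hMq
      hb' hw (Nat.cast_nonneg n) hal
    have h2 := hD' ω hω.2 h1 t ht
    exact disc_alive (hW.cont ω) (hW.zero 0 le_rfl ω) hz (by positivity) hθ hθ2 hMq
      hb' hw ht h2

end

end Pool.Agent.SLE
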