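import Pool.Agent.Lib.MP_c17912_pr.ZeroOne2

/-!
# MP_c17912_pr, project LN2: the zero-one law, the time may depend on the process
-/

set_option autoImplicit false

open MeasureTheory ProbabilityTheory Filter
open scoped NNReal ENNReal Topology

namespace Pool.Agent.SLE

noncomputable section

variable {Ω : Type*} [MeasurableSpace Ω] {μ : Measure Ω} {a b c K : ℝ} {W : ℝ → Ω → ℂ}

/-- ZO3. The zero-one law. -/
theorem ae_transient3 [IsProbabilityMeasure μ] (hW : Gau a b c K W μ) {p : ℝ}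
    (hp : 0 < p) (H : ∀ W' : ℝ → Ω → ℂ, Gau a b c K W' μ → ∃ T₀ > (0 : ℝ),
      ∃ A, MeasurableSet[Fut W' 0] A ∧ μ A ≤ ENNReal.ofReal (1 - p) ∧
        ∀ ω ∉ A, ∀ z : ℂ, ‖z‖ < 1 → (∃ g, Sol (fun t => W' t ω) z T₀ g) →
          ∀ t, 0 ≤ t → ∃ g, Sol (fun t => W' t ω) z t g) :
    ∀ᵐ ω ∂μ, Transient (fun t => W t ω) := by
  have key : ∀ n : ℕ, ∀ᵐ ω ∂μ, ∃ T > 0, ∀ z : ℂ, ‖z‖ < n →
      (∃ g, Sol (fun t => W t ω) z T g) → ∀ t, 0 ≤ t → ∃ g, Sol (fun t => W t ω) z t g := by
    intro n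
    set s : ℕ → ℝ := fun k => n + 2 * ((k : ℝ) + 2) + 3 * √((k : ℝ) + 1) with hs
    have hs0 : ∀ k, 0 < s k := fun k => by positivity
    have hk0 : ∀ k : ℕ, (0 : ℝ) < (k : ℝ) + 1 := fun k => by positivity
    have h1 := fun k : ℕ => H (subP W ((k : ℝ) + 1) (s k)) (hW.subP (hk0 k).le (hs0 k))
    have h2 := fun k : ℕ => maximal hW.toDrv (hk0 k) (l := (k : ℝ) + 2) (by positivity)
    choose T₀ hT A hA1 hA2 hA3 using h1
    choose A' hA1' hA2' hA3' using h2
    set N : Set Ω := ⋂ k, (A k ∪ A' k) with hN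
    have hNnull : μ N = 0 := by
      refine ZeroOne2Aux.null_of_lt_one (q := max (1 - p) 0)
        ({ seq := fun j : ℕ => Blk W 0 j
           mono' := fun i j hij => Blk_le_Blk le_rfl (Nat.cast_le.2 hij)
           le' := fun j => Blk_le hW.toDrv 0 j } : Filtration ℕ inferInstance) (N := N)
        (le_max_right _ _) (max_lt (by linarith) one_pos) ?_ ?_
      · refine Fut_le_iSup _ ?_
        refine MeasurableSet.iInter fun k => MeasurableSet.union ?_ ?_
        · exact Fut_anti (hk0 k).le _ (Fut_sub_le (hk0 k).le (hs0 k) _ (hA1 k))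
        · exact Blk_le_Fut _ _ _ (hA1' k)
      · intro j B hB
        have hB' : MeasurableSet[Blk W 0 j] B := hB
        have hlim : Tendsto (fun k : ℕ => μ B * ENNReal.ofReal (max (1 - p) 0) +
            ENNReal.ofReal ((a + b) * ((k : ℝ) + 1) / ((k : ℝ) + 2) ^ 2)) atTop
            (𝓝 (μ B * ENNReal.ofReal (max (1 - p) 0) + 0)) :=
          tendsto_const_nhds.add (ZeroOneAux.tendsto_small _)
        rw [add_zero] at hlim
        refine ge_of_tendsto hlim ?_
        filter_upwards [eventually_ge_atTop j] with k hk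
        have hjk : (j : ℝ) ≤ (k : ℝ) + 1 := by
          have : (j : ℝ) ≤ k := Nat.cast_le.2 hk
          linarith
        have hBk : MeasurableSet[Blk W 0 ((k : ℝ) + 1)] B := Blk_le_Blk le_rfl hjk _ hB'
        have hAk : MeasurableSet[Fut W ((k : ℝ) + 1)] (A k) :=
          Fut_sub_le (hk0 k).le (hs0 k) _ (hA1 k)
        have hind := (Indep_iff _ _ _).1 (indep_Blk_Fut hW.toDrv (hk0 k).le) B (A k) hBk hAk
        calc μ (B ∩ N) ≤ μ ((B ∩ A k) ∪ A' k) := by
              refine measure_mono fun x hx => ?_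
              rcases Set.mem_iInter.1 hx.2 k with h | h
              · exact Or.inl ⟨hx.1, h⟩
              · exact Or.inr h
          _ ≤ μ (B ∩ A k) + μ (A' k) := measure_union_le _ _
          _ ≤ μ B * ENNReal.ofReal (max (1 - p) 0) +
              ENNReal.ofReal ((a + b) * ((k : ℝ) + 1) / ((k : ℝ) + 2) ^ 2) := by
              refine add_le_add ?_ (hA2' k)
              rw [hind]
              exact mul_le_mul_right
                ((hA2 k).trans (ENNReal.ofReal_le_ofReal (le_max_left _ _))) _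
    have hae : ∀ᵐ ω ∂μ, ω ∉ N := measure_eq_zero_iff_ae_notMem.1 hNnull
    filter_upwards [hae] with ω hω
    simp only [hN, Set.mem_iInter, not_forall, Set.mem_union, not_or] at hω
    obtain ⟨k, hk1, hk2⟩ := hω
    refine ⟨(k : ℝ) + 1 + s k ^ 2 * T₀ k, by
      have := hk0 k
      have := hT k
      positivity, fun z hz hzs => ?_⟩
    exact ZeroOneAux.alive_forever (hW.cont ω) (hk0 k).le (hs0 k) (hT k) (hA3' k ω hk2) (by rw [hs])
      (fun z' hz' hzs' => hA3 k ω hk1 z' hz' hzs') hz hzs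
  filter_upwards [ae_all_iff.2 key] with ω hω R hR
  obtain ⟨T, hT0, hT1⟩ := hω ⌈R⌉₊
  refine ⟨T, hT0, ZeroOneAux.hull_eq (fun z hz => hT1 z (hz.trans_le (Nat.le_ceil R))) hT0⟩

end

end Pool.Agent.SLE
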