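import Pool.Agent.Lib.MP_c17912_pr_LN.LA
import Pool.Agent.Lib.MP_c17912_pr_LN2.SDB

/-!
# MP_c17912_pr, project LN2: the second sub-solution for diagonal matrices, `a - b < 8`
-/

set_option autoImplicit false

open MeasureTheory Filter
open scoped Topology Real

namespace Pool.Agent.SLE

noncomputable section

theorem HasAng.toB {a b c : ℝ} (h : HasAng a b c) : HasAngB a b c := h.2

open LAAux in
/-- ADG. The second sub-solution for a diagonal covariance matrix. -/
theorem hasAngB_diag {a b : ℝ} (ha : 0 < a) (hb : 0 < b) (hab : a - b < 8) :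
    HasAngB a b 0 := by
  obtain ⟨ψ, h, hh, hs, hp, he⟩ := poisson ha hb
  refine ⟨fun x => (8 - (a - b)) / 2 * ψ x, (8 - (a - b)) / 2 * h,
    mul_pos (by linarith) hh, ang_scale hs hp fun x => ?_⟩
  rw [he x]
  unfold H1
  linarith

end

end Pool.Agent.SLE
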